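import Pool.Agent.U481.HW.Stm

set_option autoImplicit false

/-!
Project HW, package WEAK: weak type (1,1) with constant 2 of the uncentred maximal function.
-/

open MeasureTheory Filter Topology Set
open scoped ENNReal NNReal

namespace Pool.Agent.U873.HW.Weak

open Pool.Agent.U481.HW

theorem lt_MM {μ : Measure ℝ} {f : ℝ → ℝ≥0∞} {x : ℝ} {t : ℝ≥0∞} :
    t < MM μ f x ↔ ∃ a b : ℝ, (a < x ∧ x < b) ∧ t < (∫⁻ y in Ioo a b, f y ∂μ) / μ (Ioo a b) := by
  unfold MM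
  simp only [lt_iSup_iff]
  constructor
  · rintro ⟨a, b, h, ht⟩; exact ⟨a, b, h, ht⟩
  · rintro ⟨a, b, h, ht⟩; exact ⟨a, b, h, ht⟩

theorem isOpen_lt_MM (μ : Measure ℝ) (f : ℝ → ℝ≥0∞) (t : ℝ≥0∞) : IsOpen {x | t < MM μ f x} := by
  rw [isOpen_iff_mem_nhds]
  intro x hx
  obtain ⟨a, b, h, ht⟩ := lt_MM.1 hx
  filter_upwards [Ioo_mem_nhds h.1 h.2] with y hy
  exact lt_MM.2 ⟨a, b, ⟨hy.1, hy.2⟩, ht⟩

theorem lsc_MM (μ : Measure ℝ) (f : ℝ → ℝ≥0∞) : LowerSemicontinuous (MM μ f) := by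
  rw [lowerSemicontinuous_iff_isOpen_preimage]
  intro t
  exact isOpen_lt_MM μ f t

theorem measurable_MM (μ : Measure ℝ) (f : ℝ → ℝ≥0∞) : Measurable (MM μ f) :=
  (lsc_MM μ f).measurable

/-- A minimal finite cover by intervals has overlap at most two. -/
theorem cover {K : Set ℝ} (P : ℝ × ℝ → Prop) (hK : IsCompact K)
    (hcov : ∀ x ∈ K, ∃ p : ℝ × ℝ, P p ∧ x ∈ Ioo p.1 p.2) :
    ∃ s : Finset (ℝ × ℝ), (∀ p ∈ s, P p) ∧ (∀ x ∈ K, ∃ p ∈ s, x ∈ Ioo p.1 p.2) ∧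
      ∀ x : ℝ, (s.filter (fun p => x ∈ Ioo p.1 p.2)).card ≤ 2 := by
  classical
  -- a finite cover exists
  have h1 : ∃ n : ℕ, ∃ s : Finset (ℝ × ℝ), s.card = n ∧ (∀ p ∈ s, P p) ∧
      (∀ x ∈ K, ∃ p ∈ s, x ∈ Ioo p.1 p.2) := by
    choose! g hg using hcov
    obtain ⟨u, hu, hKu⟩ := hK.elim_nhds_subcover (fun x => Ioo (g x).1 (g x).2)
      (fun x hx => Ioo_mem_nhds (hg x hx).2.1 (hg x hx).2.2)
    refine ⟨_, u.image g, rfl, ?_, ?_⟩
    · intro p hp
      obtain ⟨x, hx, rfl⟩ := Finset.mem_image.1 hp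
      exact (hg x (hu x hx)).1
    · intro x hx
      obtain ⟨y, hy, hxy⟩ := mem_iUnion₂.1 (hKu hx)
      exact ⟨g y, Finset.mem_image_of_mem g hy, hxy⟩
  let n := Nat.find h1
  obtain ⟨s, hcard, hP, hs⟩ := Nat.find_spec h1
  refine ⟨s, hP, hs, ?_⟩
  intro x
  by_contra hlt
  push Not at hlt
  set sx := s.filter (fun p => x ∈ Ioo p.1 p.2) with hsx
  have hne : sx.Nonempty := by
    rw [← Finset.card_pos]; omega
  obtain ⟨L, hL, hLmin⟩ := sx.exists_min_image (fun p => p.1) hne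
  obtain ⟨R, hR, hRmax⟩ := sx.exists_max_image (fun p => p.2) hne
  have h2 : ∃ p ∈ sx, p ∉ ({L, R} : Finset (ℝ × ℝ)) := by
    by_contra hcon
    push Not at hcon
    have : sx.card ≤ ({L, R} : Finset (ℝ × ℝ)).card := Finset.card_le_card hcon
    have h3 : ({L, R} : Finset (ℝ × ℝ)).card ≤ 2 := Finset.card_le_two
    omega
  obtain ⟨p, hp, hpn⟩ := h2
  simp only [Finset.mem_insert, Finset.mem_singleton, not_or] at hpn
  have hLm := Finset.mem_filter.1 hL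
  have hRm := Finset.mem_filter.1 hR
  have hpm := Finset.mem_filter.1 hp
  have hlt2 : (s.erase p).card < Nat.find h1 := by
    rw [← hcard]
    exact Finset.card_erase_lt_of_mem hpm.1
  refine Nat.find_min h1 hlt2 ⟨s.erase p, rfl, ?_, ?_⟩
  · intro q hq
    exact hP q (Finset.mem_of_mem_erase hq)
  · intro y hy
    obtain ⟨q, hq, hyq⟩ := hs y hy
    by_cases hqp : q = p
    · subst hqp
      by_cases hyL : y < L.2
      · refine ⟨L, Finset.mem_erase.2 ⟨fun h => hpn.1 h.symm, hLm.1⟩, ?_, hyL⟩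
        exact lt_of_le_of_lt (hLmin q hp) hyq.1
      · push Not at hyL
        refine ⟨R, Finset.mem_erase.2 ⟨fun h => hpn.2 h.symm, hRm.1⟩, ?_, ?_⟩
        · exact lt_of_lt_of_le (hRm.2.1.trans hLm.2.2) hyL
        · exact lt_of_lt_of_le hyq.2 (hRmax q hp)
    · exact ⟨q, Finset.mem_erase.2 ⟨hqp, hq⟩, hyq⟩

theorem compact_bound (μ : Measure ℝ) (f : ℝ → ℝ≥0∞) (hf : Measurable f) (t : ℝ≥0∞) {K : Set ℝ}
    (hK : IsCompact K) (hsub : K ⊆ {x | t < MM μ f x}) : t * μ K ≤ 2 * ∫⁻ y, f y ∂μ := by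
  classical
  obtain ⟨s, hP, hs, h2⟩ := cover
    (fun p : ℝ × ℝ => t < (∫⁻ y in Ioo p.1 p.2, f y ∂μ) / μ (Ioo p.1 p.2)) hK (by
      intro x hx
      obtain ⟨a, b, h, ht⟩ := lt_MM.1 (hsub hx)
      exact ⟨(a, b), ht, h⟩)
  have hKU : K ⊆ ⋃ p ∈ s, Ioo p.1 p.2 := by
    intro x hx
    obtain ⟨p, hp, hxp⟩ := hs x hx
    exact mem_iUnion₂.2 ⟨p, hp, hxp⟩
  calc t * μ K ≤ t * ∑ p ∈ s, μ (Ioo p.1 p.2) := by
        gcongr
        exact (measure_mono hKU).trans (measure_biUnion_finset_le s _)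
    _ = ∑ p ∈ s, t * μ (Ioo p.1 p.2) := by rw [Finset.mul_sum]
    _ ≤ ∑ p ∈ s, ∫⁻ y in Ioo p.1 p.2, f y ∂μ := by
        refine Finset.sum_le_sum fun p hp => ?_
        exact ENNReal.mul_le_of_le_div (hP p hp).le
    _ = ∑ p ∈ s, ∫⁻ y, (Ioo p.1 p.2).indicator f y ∂μ := by
        refine Finset.sum_congr rfl fun p hp => ?_
        rw [lintegral_indicator measurableSet_Ioo]
    _ = ∫⁻ y, ∑ p ∈ s, (Ioo p.1 p.2).indicator f y ∂μ := by
        rw [lintegral_finset_sum]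
        intro p hp
        exact hf.indicator measurableSet_Ioo
    _ ≤ ∫⁻ y, 2 * f y ∂μ := by
        refine lintegral_mono fun y => ?_
        have h3 : ∑ p ∈ s, (Ioo p.1 p.2).indicator f y =
            ((s.filter (fun p => y ∈ Ioo p.1 p.2)).card : ℝ≥0∞) * f y := by
          rw [← nsmul_eq_mul, ← Finset.sum_const, Finset.sum_filter]
          refine Finset.sum_congr rfl fun p hp => ?_
          by_cases h : y ∈ Ioo p.1 p.2
          · simp only [h, indicator_of_mem, if_true]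
          · simp only [h, not_false_eq_true, indicator_of_notMem, if_false]
        show ∑ p ∈ s, (Ioo p.1 p.2).indicator f y ≤ 2 * f y
        rw [h3]
        gcongr
        exact_mod_cast h2 y
    _ = 2 * ∫⁻ y, f y ∂μ := by rw [lintegral_const_mul _ hf]

theorem main : S_weak := by
  intro μ hμ f hf t
  haveI : IsLocallyFiniteMeasure μ := by
    refine ⟨fun x => ⟨Ioo (x - 1) (x + 1), Ioo_mem_nhds (by linarith) (by linarith), hμ _ _⟩⟩
  have hopen := isOpen_lt_MM μ f t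
  rw [hopen.measure_eq_iSup_isCompact]
  rw [ENNReal.mul_iSup]
  refine iSup_le fun K => ?_
  rw [ENNReal.mul_iSup]
  refine iSup_le fun hsub => ?_
  rw [ENNReal.mul_iSup]
  refine iSup_le fun hK => ?_
  exact compact_bound μ f hf t hK hsub

end Pool.Agent.U873.HW.Weak
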